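import Pool.Agent.helper24.ISL.Spec

set_option autoImplicit false

namespace Pool.Agent.ISL

open Matrix

/-- the diagonal entries -/
def DD_d {n : ℕ} (k : Fin n) (b : ℚ) : Fin n → ℚ := fun i => if i = k then b ^ (n - 1) else b⁻¹

theorem DD_det {n : ℕ} (hn : 2 ≤ n) (k : Fin n) (b : ℚ) (hb : b ≠ 0) :
    (Matrix.diagonal (DD_d k b)).det = 1 := by
  rw [Matrix.det_diagonal, ← Finset.mul_prod_erase Finset.univ _ (Finset.mem_univ k)]
  have h1 : ∏ x ∈ Finset.univ.erase k, DD_d k b x = (b⁻¹) ^ (n - 1) := by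
    rw [Finset.prod_congr rfl (g := fun _ => b⁻¹)]
    · rw [Finset.prod_const, Finset.card_erase_of_mem (Finset.mem_univ k), Finset.card_univ,
        Fintype.card_fin]
    · intro x hx
      have := (Finset.mem_erase.1 hx).1
      simp [DD_d, this]
  rw [h1]
  simp only [DD_d, if_true]
  rw [← mul_pow, mul_inv_cancel₀ hb, one_pow]

/-- the diagonal element -/
def DD_G {n : ℕ} (hn : 2 ≤ n) (k : Fin n) (b : ℚ) (hb : b ≠ 0) : SL n ℚ :=
  ⟨Matrix.diagonal (DD_d k b), DD_det hn k b hb⟩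

theorem DD_mul {n : ℕ} (hn : 2 ≤ n) (k : Fin n) (b c : ℚ) (hb : b ≠ 0) (hc : c ≠ 0) :
    DD_G hn k b hb * DD_G hn k c hc = DD_G hn k (b * c) (mul_ne_zero hb hc) := by
  apply Subtype.ext
  show Matrix.diagonal (DD_d k b) * Matrix.diagonal (DD_d k c) = Matrix.diagonal (DD_d k (b * c))
  rw [Matrix.diagonal_mul_diagonal]
  apply congrArg
  funext i
  by_cases h : i = k
  · simp [DD_d, h, mul_pow]
  · simp [DD_d, h, mul_comm]

theorem DD_one {n : ℕ} (hn : 2 ≤ n) (k : Fin n) : DD_G hn k 1 one_ne_zero = 1 := by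
  apply Subtype.ext
  show Matrix.diagonal (DD_d k 1) = 1
  rw [← Matrix.diagonal_one]
  apply congrArg
  funext i
  simp [DD_d]

theorem DD_pow {n : ℕ} (hn : 2 ≤ n) (k : Fin n) (b : ℚ) (hb : b ≠ 0) (i : ℕ) :
    DD_G hn k b hb ^ i = DD_G hn k (b ^ i) (pow_ne_zero i hb) := by
  induction i with
  | zero => simpa using (DD_one hn k).symm
  | succ i ih =>
    rw [pow_succ, ih, DD_mul]
    apply Subtype.ext
    show Matrix.diagonal (DD_d k (b ^ i * b)) = Matrix.diagonal (DD_d k (b ^ (i + 1)))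
    rw [pow_succ]

theorem DD_inv {n : ℕ} (hn : 2 ≤ n) (k : Fin n) (b : ℚ) (hb : b ≠ 0) :
    (DD_G hn k b hb)⁻¹ = DD_G hn k b⁻¹ (inv_ne_zero hb) := by
  apply inv_eq_of_mul_eq_one_right
  rw [DD_mul, ← DD_one hn k]
  apply Subtype.ext
  show Matrix.diagonal (DD_d k (b * b⁻¹)) = Matrix.diagonal (DD_d k 1)
  rw [mul_inv_cancel₀ hb]

theorem DD_mat {n : ℕ} (hn : 2 ≤ n) (k : Fin n) (b : ℚ) (hb : b ≠ 0) :
    Matrix.diagonal (DD_d k b)
      = b⁻¹ • (1 + (b ^ n - 1) • rk (Pi.single k (1 : ℚ)) (Pi.single k (1 : ℚ))) := by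
  ext i j
  rw [Matrix.smul_apply, Matrix.add_apply, Matrix.smul_apply, rk, Matrix.vecMulVec_apply]
  by_cases hij : i = j
  · subst hij
    rw [Matrix.diagonal_apply_eq, Matrix.one_apply_eq]
    by_cases h : i = k
    · subst h
      have e : b ^ n = b ^ (n - 1) * b := by rw [← pow_succ]; congr 1; omega
      simp only [DD_d, if_true, Pi.single_eq_same, smul_eq_mul, e]
      field_simp
      ring
    · simp [DD_d, h, Pi.single_apply]
  · rw [Matrix.diagonal_apply_ne _ hij, Matrix.one_apply_ne hij]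
    by_cases h : i = k
    · have h2 : ¬ j = k := fun h3 => hij (h.trans h3.symm)
      simp [Pi.single_apply, h2]
    · simp [Pi.single_apply, h]

theorem DD_conj {n : ℕ} (hn : 2 ≤ n) (k : Fin n) (b : ℚ) (hb : b ≠ 0) (x : SL n ℚ) :
    ((x * DD_G hn k b hb * x⁻¹ : SL n ℚ) : Mat n ℚ)
      = b⁻¹ • (1 + (b ^ n - 1) • rk ((x : Mat n ℚ) *ᵥ Pi.single k (1 : ℚ))
          (Pi.single k (1 : ℚ) ᵥ* ((x⁻¹ : SL n ℚ) : Mat n ℚ))) := by
  have h1 : (x : Mat n ℚ) * ((x⁻¹ : SL n ℚ) : Mat n ℚ) = 1 := by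
    rw [← Matrix.SpecialLinearGroup.coe_mul, mul_inv_cancel, Matrix.SpecialLinearGroup.coe_one]
  rw [Matrix.SpecialLinearGroup.coe_mul, Matrix.SpecialLinearGroup.coe_mul]
  have h2 : ((DD_G hn k b hb : SL n ℚ) : Mat n ℚ) = Matrix.diagonal (DD_d k b) := rfl
  rw [h2, DD_mat hn k b hb, Matrix.mul_smul, Matrix.smul_mul, Matrix.mul_add, Matrix.add_mul,
    Matrix.mul_one, h1, Matrix.mul_smul, Matrix.smul_mul, rk, rk, Matrix.mul_vecMulVec,
    Matrix.vecMulVec_mul]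

theorem DD : DD_stmt := by
  intro n hn H hH a ha
  have hn0 : 0 < n := by omega
  set k : Fin n := ⟨0, hn0⟩ with hk
  obtain ⟨x, hx⟩ := hH (DD_G hn k a ha)
  refine ⟨(x : Mat n ℚ) *ᵥ Pi.single k (1 : ℚ),
    Pi.single k (1 : ℚ) ᵥ* ((x⁻¹ : SL n ℚ) : Mat n ℚ), ?_, ?_⟩
  · rw [← Matrix.dotProduct_mulVec, Matrix.mulVec_mulVec, ← Matrix.SpecialLinearGroup.coe_mul,
      inv_mul_cancel, Matrix.SpecialLinearGroup.coe_one, Matrix.one_mulVec]
    simp
  · intro i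
    refine ⟨x * DD_G hn k (a ^ i) (pow_ne_zero i ha) * x⁻¹, ?_, ?_, ?_⟩
    · have h := H.pow_mem hx i
      rwa [conj_pow, DD_pow] at h
    · rw [DD_conj, ← pow_mul, mul_comm i n]
    · have e : (x * DD_G hn k (a ^ i) (pow_ne_zero i ha) * x⁻¹)⁻¹
          = x * DD_G hn k (a ^ i)⁻¹ (inv_ne_zero (pow_ne_zero i ha)) * x⁻¹ := by
        rw [← DD_inv, _root_.mul_inv_rev, _root_.mul_inv_rev, inv_inv, mul_assoc]
      rw [e, DD_conj, inv_inv, inv_pow, ← pow_mul, mul_comm i n]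

end Pool.Agent.ISL
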